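import Pool.Agent.BSE.Stmts

/-!
# SCH: the average of the powers of a bilinear form over `U_B`
-/

set_option autoImplicit false

open MeasureTheory Matrix Finset
open scoped ComplexConjugate

namespace Pool.Agent.BSE.H17

open Pool.Agent.Helper64_FR Pool.Agent.BSE

variable {n : ℕ}

theorem int_cont (B : Finset (Fin n)) {f : UB B → ℂ} (hf : Continuous f) :
    Integrable f (haarB B) := by
  have h1 : IsFiniteMeasureOnCompacts (haarB B) := by
    unfold haarB
    infer_instance
  exact hf.integrable_of_hasCompactSupport (HasCompactSupport.of_compactSpace f)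

theorem cont_entry (B : Finset (Fin n)) (i j : Fin n) :
    Continuous fun A : UB B => ((A : UU n) : Matrix (Fin n) (Fin n) ℂ) i j :=
  (continuous_apply_apply i j).comp (continuous_subtype_val.comp continuous_subtype_val)

theorem cont_mv (B : Finset (Fin n)) (u : Fin n → ℂ) (i : Fin n) :
    Continuous fun A : UB B => (((A : UU n) : Matrix (Fin n) (Fin n) ℂ) *ᵥ u) i := by
  have h : ∀ A : UB B, (((A : UU n) : Matrix (Fin n) (Fin n) ℂ) *ᵥ u) i =
      ∑ j, ((A : UU n) : Matrix (Fin n) (Fin n) ℂ) i j * u j := fun A => rfl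
  simp_rw [h]
  exact continuous_finset_sum _ fun j _ => (cont_entry B i j).mul continuous_const

theorem bil_conj (A : UU n) (u v : Fin n → ℂ) (c : Fin n → ℝ) :
    bil u v (((A⁻¹ : UU n) : Matrix (Fin n) (Fin n) ℂ) * dg c *
      (A : Matrix (Fin n) (Fin n) ℂ)) =
    ∑ l, (c l : ℂ) * conj (((A : Matrix (Fin n) (Fin n) ℂ) *ᵥ v) l) *
      ((A : Matrix (Fin n) (Fin n) ℂ) *ᵥ u) l := by
  have h1 : ∀ i j, (((A⁻¹ : UU n) : Matrix (Fin n) (Fin n) ℂ) * dg c *
      (A : Matrix (Fin n) (Fin n) ℂ)) i j = ∑ l, conj ((A : Matrix (Fin n) (Fin n) ℂ) l i) *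
        (c l : ℂ) * (A : Matrix (Fin n) (Fin n) ℂ) l j := by
    intro i j
    rw [Matrix.mul_apply]
    refine Finset.sum_congr rfl fun l _ => ?_
    unfold dg
    rw [Matrix.mul_diagonal]
    rfl
  have h2 : ∀ (w : Fin n → ℂ) (l : Fin n), ((A : Matrix (Fin n) (Fin n) ℂ) *ᵥ w) l =
      ∑ j, (A : Matrix (Fin n) (Fin n) ℂ) l j * w j := fun w l => rfl
  unfold bil
  simp_rw [h1, h2, map_sum, map_mul]
  calc ∑ i, ∑ j, conj (v i) * (∑ l, conj ((A : Matrix (Fin n) (Fin n) ℂ) l i) * (c l : ℂ) *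
        (A : Matrix (Fin n) (Fin n) ℂ) l j) * u j
      = ∑ i, ∑ j, ∑ l, conj (v i) * (conj ((A : Matrix (Fin n) (Fin n) ℂ) l i) * (c l : ℂ) *
        (A : Matrix (Fin n) (Fin n) ℂ) l j) * u j := by
        refine Finset.sum_congr rfl fun i _ => Finset.sum_congr rfl fun j _ => ?_
        rw [Finset.mul_sum, Finset.sum_mul]
    _ = ∑ i, ∑ l, ∑ j, conj (v i) * (conj ((A : Matrix (Fin n) (Fin n) ℂ) l i) * (c l : ℂ) *
        (A : Matrix (Fin n) (Fin n) ℂ) l j) * u j :=
        Finset.sum_congr rfl fun i _ => Finset.sum_comm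
    _ = ∑ l, ∑ i, ∑ j, conj (v i) * (conj ((A : Matrix (Fin n) (Fin n) ℂ) l i) * (c l : ℂ) *
        (A : Matrix (Fin n) (Fin n) ℂ) l j) * u j := Finset.sum_comm
    _ = _ := by
        refine Finset.sum_congr rfl fun l _ => ?_
        rw [mul_assoc, Finset.sum_mul_sum, Finset.mul_sum]
        refine Finset.sum_congr rfl fun i _ => ?_
        rw [Finset.mul_sum]
        refine Finset.sum_congr rfl fun j _ => ?_
        ring

theorem mv_off {B : Finset (Fin n)} (A : UB B) (u : Fin n → ℂ) {i : Fin n} (hi : i ∉ B) :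
    (((A : UU n) : Matrix (Fin n) (Fin n) ℂ) *ᵥ u) i = u i := by
  have h : (((A : UU n) : Matrix (Fin n) (Fin n) ℂ) *ᵥ u) i =
      ∑ j, ((A : UU n) : Matrix (Fin n) (Fin n) ℂ) i j * u j := rfl
  rw [h]
  have h2 : ∀ j, ((A : UU n) : Matrix (Fin n) (Fin n) ℂ) i j = if i = j then 1 else 0 :=
    fun j => A.2 i j (Or.inl hi)
  simp [h2]

theorem split {B : Finset (Fin n)} (f : Fin n → ℂ) :
    ∑ i, f i = ∑ i ∈ B, f i + ∑ i ∈ Bᶜ, f i := (Finset.sum_add_sum_compl B f).symm

theorem sch (sc1 : SC1Stmt) : SCHStmt := by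
  intro n B k u v c
  obtain ⟨s, hs⟩ : ∃ s : ℂ, s = ∑ i ∈ Bᶜ, (c i : ℂ) * conj (v i) * u i := ⟨_, rfl⟩
  obtain ⟨q, hq⟩ : ∃ q : ℂ, q = ∑ i ∈ B, conj (v i) * u i := ⟨_, rfl⟩
  have hL : ∀ A : UB B, bil u v ((((A : UU n)⁻¹ : UU n) : Matrix (Fin n) (Fin n) ℂ) * dg c *
      ((A : UU n) : Matrix (Fin n) (Fin n) ℂ)) =
      (∑ i ∈ B, (c i : ℂ) * conj ((((A : UU n) : Matrix (Fin n) (Fin n) ℂ) *ᵥ v) i) *
        (((A : UU n) : Matrix (Fin n) (Fin n) ℂ) *ᵥ u) i) + s := by
    intro A
    rw [bil_conj, split (B := B), hs]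
    congr 1
    refine Finset.sum_congr rfl fun i hi => ?_
    rw [Finset.mem_compl] at hi
    rw [mv_off A v hi, mv_off A u hi]
  have hR : ∀ (D : Fin n → ℝ), bil u v (dg D) = ∑ i, (D i : ℂ) * (conj (v i) * u i) := by
    intro D
    unfold bil dg
    refine Finset.sum_congr rfl fun i _ => ?_
    rw [Finset.sum_eq_single i]
    · rw [Matrix.diagonal_apply_eq]
      ring
    · intro j _ hj
      rw [Matrix.diagonal_apply_ne _ (Ne.symm hj)]
      ring
    · intro h
      exact absurd (Finset.mem_univ i) h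
  rcases B.eq_empty_or_nonempty with hB | hB
  · subst hB
    have h1 : ∀ A : UB (∅ : Finset (Fin n)), bil u v ((((A : UU n)⁻¹ : UU n) :
        Matrix (Fin n) (Fin n) ℂ) * dg c * ((A : UU n) : Matrix (Fin n) (Fin n) ℂ)) =
        bil u v (dg (TB ∅ (A : UU n) c)) := by
      intro A
      rw [hL, hR, hs]
      simp only [Finset.sum_empty, Finset.compl_empty, zero_add]
      refine Finset.sum_congr rfl fun i _ => ?_
      unfold TB
      rw [dif_neg (Finset.notMem_empty i)]
      ring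
    simp_rw [h1]
  · obtain ⟨b, hbd⟩ : ∃ b, b = B.min' hB := ⟨_, rfl⟩
    have hb : b ∈ B := by
      rw [hbd]
      exact Finset.min'_mem _ _
    have hR2 : ∀ A : UB B, bil u v (dg (TB B (A : UU n) c)) =
        ((∑ j ∈ B, ‖((A : UU n) : Matrix (Fin n) (Fin n) ℂ) j b‖ ^ 2 * c j : ℝ) : ℂ) * q + s := by
      intro A
      rw [hR, split (B := B), hs, hq, Finset.mul_sum]
      congr 1
      · refine Finset.sum_congr rfl fun i hi => ?_
        unfold TB
        rw [dif_pos hi, hbd]
      · refine Finset.sum_congr rfl fun i hi => ?_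
        rw [Finset.mem_compl] at hi
        unfold TB
        rw [dif_neg hi]
        ring
    have cX : Continuous fun A : UB B => ∑ i ∈ B, (c i : ℂ) *
        conj ((((A : UU n) : Matrix (Fin n) (Fin n) ℂ) *ᵥ v) i) *
        (((A : UU n) : Matrix (Fin n) (Fin n) ℂ) *ᵥ u) i :=
      continuous_finset_sum _ fun i _ => (continuous_const.mul
        (Complex.continuous_conj.comp (cont_mv B v i))).mul (cont_mv B u i)
    have cV : Continuous fun A : UB B =>
        ((∑ j ∈ B, ‖((A : UU n) : Matrix (Fin n) (Fin n) ℂ) j b‖ ^ 2 * c j : ℝ) : ℂ) :=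
      Complex.continuous_ofReal.comp (continuous_finset_sum _ fun j _ =>
        ((cont_entry B j b).norm.pow 2).mul continuous_const)
    simp_rw [hL, hR2, add_pow]
    rw [integral_finset_sum, integral_finset_sum]
    · refine Finset.sum_congr rfl fun m _ => ?_
      rw [integral_mul_const, integral_mul_const, integral_mul_const, integral_mul_const,
        sc1 n B b hb m u v c, ← hq]
      simp_rw [mul_pow]
      rw [integral_mul_const]
      ring
    · intro m _
      exact int_cont B ((((cV.mul continuous_const).pow m).mul continuous_const).mul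
        continuous_const)
    · intro m _
      exact int_cont B (((cX.pow m).mul continuous_const).mul continuous_const)

end Pool.Agent.BSE.H17
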